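import Pool.Agent.X169.Vis.Basic
import Pool.Agent.W689.Ch.Main

/-!
# What one point of a closed affine manifold sees

Chern's conjecture says that closed affine manifolds have Euler characteristic zero. It is known for
complete manifolds (Kostant and Sullivan), and by the theorem of Poincare and Hopf it is enough to
find a continuous vector field without zeros. We prove it for the closed affine manifolds with a
point that sees every point of the universal covering (along geodesic segments). It is enough that
the set of the points seen by one point is closed, or that the domain of the exponential map at one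
point is convex.
-/

set_option autoImplicit false

open Set Topology

namespace Pool.Agent.Results.MP_1fa9a4_gt.OnePointVisibility

/-- A closed affine manifold `Γ \ X` modelled on the vector space `E`: the group `Γ` acts on the
Hausdorff space `X` properly discontinuously and with compact quotient, and the developing map
`dev` is a local homeomorphism to `E` that is equivariant with respect to the affine holonomy
`hol`. -/
structure ClosedAffine (X Γ E : Type) [TopologicalSpace X] [Group Γ] [MulAction Γ X]
    [NormedAddCommGroup E] [NormedSpace ℝ E] (dev : X → E) (hol : Γ →* (E ≃ᵃ[ℝ] E)) : Prop where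
  /-- the developing map is a local homeomorphism -/
  loc : IsLocalHomeomorph dev
  /-- the group acts by homeomorphisms -/
  cont : ∀ γ : Γ, Continuous fun x : X => γ • x
  /-- the developing map is equivariant -/
  equi : ∀ (γ : Γ) (x : X), dev (γ • x) = hol γ (dev x)
  /-- the action is properly discontinuous -/
  pd : ∀ K : Set X, IsCompact K → {γ : Γ | ∃ x ∈ K, γ • x ∈ K}.Finite
  /-- the quotient is compact -/
  cc : ∃ K : Set X, IsCompact K ∧ ∀ x : X, ∃ γ : Γ, ∃ k ∈ K, γ • k = x

variable {X Γ E : Type} [TopologicalSpace X] [Group Γ] [MulAction Γ X] [NormedAddCommGroup E]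
  [NormedSpace ℝ E]

/-- The geodesic with initial point `x` and initial velocity `v` is defined up to time one and
ends at `y`: some path from `x` to `y` is developed to `t ↦ dev x + t v`. -/
def Geodesic (dev : X → E) (x : X) (v : E) (y : X) : Prop :=
  ∃ c : ℝ → X, ContinuousOn c (Icc 0 1) ∧ c 0 = x ∧ c 1 = y ∧
    ∀ t ∈ Icc (0 : ℝ) 1, dev (c t) = dev x + t • v

/-- The points seen by `x`: the end points of the geodesics that start at `x`. -/
def Seen (dev : X → E) (x : X) : Set X := {y | ∃ v : E, Geodesic dev x v y}

/-- The velocities at `x` of the geodesics that are defined up to time one, the domain of the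
exponential map. -/
def Domain (dev : X → E) (x : X) : Set E := {v | ∃ y : X, Geodesic dev x v y}

/-- The closed affine manifold has a continuous vector field without zeros. -/
def HasField (_dev : X → E) (hol : Γ →* (E ≃ᵃ[ℝ] E)) : Prop :=
  ∃ Z : X → E, Continuous Z ∧ (∀ (γ : Γ) (x : X), Z (γ • x) = (hol γ).linear (Z x)) ∧
    ∀ x, Z x ≠ 0

/-- **Theorem.** Let `Γ \ X` be a closed affine manifold with connected cover `X`, and let `x` be
one point of `X`. Suppose that `x` sees every point of `X`, or that the set of the points seen by
`x` is closed, or that the domain of the exponential map at `x` is convex. Then `x` sees every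
point, the developing map is injective with star-shaped image, and the manifold is complete (the
developing map is a homeomorphism onto the affine space) or has a continuous vector field without
zeros. -/
theorem result [T2Space X] [ConnectedSpace X] [FiniteDimensional ℝ E] {dev : X → E}
    {hol : Γ →* (E ≃ᵃ[ℝ] E)} (D : ClosedAffine X Γ E dev hol) (x : X)
    (h : Seen dev x = univ ∨ IsClosed (Seen dev x) ∨ Convex ℝ (Domain dev x)) :
    Seen dev x = univ ∧ Function.Injective dev ∧ StarConvex ℝ (dev x) (range dev) ∧
      (IsHomeomorph dev ∨ HasField dev hol) := by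
  have D' : Pool.Agent.W689.Ch.AffMfd X Γ E dev hol := ⟨D.loc, D.cont, D.equi, D.pd, D.cc⟩
  have hG : ∀ (v : E) (y : X), Geodesic dev x v y ↔ Pool.Agent.W689.Mk.Ex dev x v y :=
    fun v y => (X169.Vis.Ex_iff D.loc).symm
  have hS : Seen dev x = X169.Vis.Vis dev x := by
    ext y
    exact exists_congr fun v => hG v y
  have hD : Domain dev x = X169.Vis.Dom dev x := by
    ext v
    exact exists_congr fun y => hG v y
  rw [hS, hD] at h
  have hall : X169.Vis.Vis dev x = univ := by
    rcases h with h | h | h
    · exact h
    · exact X169.Vis.vis_univ D.loc h
    · exact X169.Vis.vis_univ D.loc (X169.Vis.isClosed_vis_of_convex D.loc h)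
  have hstar : StarConvex ℝ (dev x) (range dev) := by
    have h1 := X169.Vis.star_dom (dev := dev) x
    rwa [hall, image_univ] at h1
  have hinj : Function.Injective dev := by
    intro y z hyz
    have hy : y ∈ X169.Vis.Vis dev x := by rw [hall]; trivial
    have hz : z ∈ X169.Vis.Vis dev x := by rw [hall]; trivial
    obtain ⟨v, hv⟩ := hy
    obtain ⟨w, hw⟩ := hz
    have h1 : dev x + v = dev x + w := by rw [← hv.dev_eq, ← hw.dev_eq, hyz]
    have h2 : v = w := add_left_cancel h1
    rw [← h2] at hw
    exact hv.unique D.loc hw
  refine ⟨hS.trans hall, hinj, hstar, ?_⟩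
  by_cases hr : range dev = univ
  · exact Or.inl ⟨D.loc.continuous, D.loc.isOpenMap, hinj, range_eq_univ.1 hr⟩
  · right
    by_contra hno
    exact (Pool.Agent.W689.Ch.main D' (S := range dev) (p := dev x) ⟨x, rfl⟩ hstar hr
      (by rintro γ _ ⟨y, rfl⟩; exact ⟨γ • y, D.equi γ y⟩) hno).1 Subset.rfl

end Pool.Agent.Results.MP_1fa9a4_gt.OnePointVisibility
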