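import Pool.Agent.X308.M.Main2

/-!
# Multiplicative invariants of closed affine manifolds: sublinear bounds imply vanishing
-/

set_option autoImplicit false

namespace Pool.Agent.Results.MP_1fa9a4_gt.SublinearBounds

open Pool.Agent.X308.M Filter Topology

/-- **Theorem.** Let `v` be multiplicative under finite coverings and supermultiplicative under
products, up to sign. A sublinear bound along finite coverings, or a bound
`B ^ k * exp (sublinear)` along the `k`-fold powers of finite coverings, forces `v` to vanish; the
bound may be in terms of the number of generators of the holonomy group. -/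
theorem result (v : AffineManifold → ℝ) (hcov : CoveringMultiplicative v)
    (hprod : ProductSupermultiplicative v) :
    (∀ c : AffineManifold → ℝ, CoveringSubmultiplicative c →
      ∀ M : AffineManifold, 0 < M.dim → ∀ F : Finset M.Γ,
        (v M = 0 ↔ ∃ f : ℝ → ℝ, Sublinear f ∧
          ∀ (S : Subgroup M.Γ) [S.FiniteIndex], M.Admissible F S →
            |v (M.cover S)| ≤ f (c (M.cover S)))) ∧
    (∀ c : AffineManifold → ℝ, ProductSubadditive c →
      ∀ M : AffineManifold, 0 < M.dim → ∀ F : Finset M.Γ,
        (∃ B : ℝ, 0 ≤ B ∧ ∃ f : ℝ → ℝ, Sublinear f ∧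
          ∀ (S : Subgroup M.Γ) [S.FiniteIndex], M.Admissible F S → ∀ k : ℕ,
            |v ((M.cover S).power k)| ≤
              B ^ (k + 1) * Real.exp (f (c ((M.cover S).power k)))) →
        v M = 0) ∧
    CoveringSubmultiplicative (fun M => (M.holRank : ℝ)) ∧
    ProductSubadditive (fun M => (M.holRank : ℝ)) := by
  refine ⟨?_, ?_, fun M S _ => ?_, fun M N => ?_⟩
  · intro c hc M hn F
    constructor
    · intro h0
      refine ⟨fun _ => 0, ⟨monotone_const, by simp⟩, ?_⟩
      intro S _ _
      rw [hcov M S, h0]
      simp
    · rintro ⟨f, hf, h⟩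
      exact main v hcov c hc f hf M hn F h
  · intro c hc M hn F
    rintro ⟨B, hB, f, hf, h⟩
    exact main2 v hcov hprod c hc B hB f hf M hn F h
  · change ((M.cover S).holRank : ℝ) ≤ S.index * (M.holRank : ℝ)
    exact_mod_cast M.holRank_cover S
  · change ((M.prod N).holRank : ℝ) ≤ (M.holRank : ℝ) + (N.holRank : ℝ)
    exact_mod_cast M.holRank_prod N

end Pool.Agent.Results.MP_1fa9a4_gt.SublinearBounds
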